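import Pool.Agent.helper36.NF.SpecD

/-!
# Row nf:FN3: the final theorem for quotients
-/

set_option autoImplicit false

open Polynomial Filter FirstOrder FirstOrder.Language

namespace Pool.Agent.NoFormula

/-- the property at the index `m` -/
def FN3_good (u v : ℕ → ℤ) (m : ℕ) : Prop :=
  ∀ D : ℤ, u m ≠ 0 → u m * D = v m → D ∣ 2 ^ (2 ^ m) + 1 → |D| = 1 ∨ |D| = 2 ^ (2 ^ m) + 1

theorem FN3_trans (u v u' v' : ℕ → ℤ) (hk : KillQ u' v')
    (h : ∀ᶠ m : ℕ in atTop, FN3_good u' v' m → FN3_good u v m) : KillQ u v := by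
  obtain ⟨N, hN⟩ := eventually_atTop.1 h
  intro a d hd
  obtain ⟨b, e, he, h1, h2⟩ := hk (a + d * N) d hd
  refine ⟨b, e, he, fun j => ?_, fun j D => ?_⟩
  · obtain ⟨i, hi⟩ := h1 j
    exact ⟨N + i, by rw [hi]; ring⟩
  · obtain ⟨i, hi⟩ := h1 j
    have hle : N ≤ b + e * j := by
      rw [hi]
      have h3 : N ≤ d * N := Nat.le_mul_of_pos_left N hd
      have h4 : 0 ≤ d * i := Nat.zero_le _
      omega
    exact hN (b + e * j) hle (fun D => h2 j D) D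

theorem FN3_late (u v : ℕ → ℤ) (h : ∀ᶠ m : ℕ in atTop, FN3_good u v m) : KillQ u v := by
  obtain ⟨N, hN⟩ := eventually_atTop.1 h
  intro a d hd
  refine ⟨a + d * N, d, hd, fun j => ⟨N + j, by ring⟩, fun j D => ?_⟩
  have hle : N ≤ a + d * N + d * j := by
    have h3 : N ≤ d * N := Nat.le_mul_of_pos_left N hd
    have h4 : 0 ≤ d * j := Nat.zero_le _
    omega
  exact hN _ hle D

theorem FN3_lev (hLVA : LVA_stmt) (k n : ℕ) (f : ℕ → ℤ) (h : Lev k f) : Lev (k + n) f := by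
  induction n with
  | zero => exact h
  | succ n ih => exact hLVA.2.2.2.1 (k + n) f ih

theorem FN3_list (A : List ((ℕ → ℤ) × (ℕ → ℤ))) (hA : ∀ x ∈ A, KillQ x.1 x.2) :
    ∀ a d : ℕ, 0 < d → ∃ b e : ℕ, 0 < e ∧ (∀ j : ℕ, ∃ i : ℕ, b + e * j = a + d * i) ∧
      ∀ x ∈ A, ∀ (j : ℕ) (D : ℤ), x.1 (b + e * j) ≠ 0 → x.1 (b + e * j) * D = x.2 (b + e * j) →
        D ∣ 2 ^ (2 ^ (b + e * j)) + 1 → |D| = 1 ∨ |D| = 2 ^ (2 ^ (b + e * j)) + 1 := by
  induction A with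
  | nil =>
    intro a d hd
    refine ⟨a, d, hd, fun j => ⟨j, rfl⟩, ?_⟩
    intro x hx
    exact absurd hx List.not_mem_nil
  | cons g A ih =>
    intro a d hd
    obtain ⟨b₀, e₀, he₀, h1, h2⟩ := hA g List.mem_cons_self a d hd
    obtain ⟨b, e, he, h3, h4⟩ := ih (fun x hx => hA x (List.mem_cons_of_mem g hx)) b₀ e₀ he₀
    refine ⟨b, e, he, ?_, ?_⟩
    · intro j
      obtain ⟨i, hi⟩ := h3 j
      obtain ⟨i', hi'⟩ := h1 i
      exact ⟨i', hi.trans hi'⟩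
    · intro x hx j
      rcases List.mem_cons.1 hx with hx | hx
      · obtain ⟨i, hi⟩ := h3 j
        rw [hx, hi]
        exact h2 i
      · exact h4 x hx j

theorem FN3_kill (hLVA : LVA_stmt) (hFR2 : FR2_stmt) (hNQV : NQV_stmt) (hTA2 : TA2_stmt)
    (hKI2 : KI2_stmt) (u v : ℕ → ℤ) (hu : EvFml u) (hv : EvFml v) : KillQ u v := by
  obtain ⟨s, hs⟩ := hu
  obtain ⟨t, ht⟩ := hv
  obtain ⟨k1, h1⟩ := hFR2 s
  obtain ⟨k2, h2⟩ := hFR2 t
  have hu1 : Lev (k1 + k2) u := FN3_lev hLVA k1 k2 u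
    (hLVA.2.2.2.2.2 k1 s.eval u h1 (hs.mono fun m hm => hm.symm))
  have hv1 : Lev (k1 + k2) v := by
    rw [add_comm]
    exact FN3_lev hLVA k2 k1 v (hLVA.2.2.2.2.2 k2 t.eval v h2 (ht.mono fun m hm => hm.symm))
  rcases hNQV (k1 + k2) v u hv1 hu1 with h | h | ⟨u', v', hu', hv', hne, h⟩ | ⟨u', v', hu', hv', hne, h⟩
  · refine FN3_late u v (h.mono fun m hm D hD => ?_)
    exact absurd hm hD
  · refine FN3_late u v (h.mono fun m hm D _ h3 h4 => ?_)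
    exact absurd h4 (hm D h3)
  · refine FN3_trans u v u' v' (hKI2 u' v' (hTA2 u' hu') (hTA2 v' hv')) ?_
    filter_upwards [hne, h] with m h3 h4 hg D _ h6 h7
    obtain ⟨E, hE⟩ := h7
    exact hg D h3 (h4 D E h6 hE.symm) ⟨E, hE⟩
  · refine FN3_trans u v u' v' (hKI2 u' v' (hTA2 u' hu') (hTA2 v' hv')) ?_
    filter_upwards [hne, h] with m h3 h4 hg D _ h6 h7
    obtain ⟨E, hE⟩ := h7
    have hpos : (0 : ℤ) < 2 ^ (2 ^ m) + 1 := by positivity
    have habs : |D| * |E| = 2 ^ (2 ^ m) + 1 := by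
      rw [← abs_mul, ← hE, abs_of_pos hpos]
    rcases hg E h3 (h4 D E h6 hE.symm) ⟨D, by rw [hE, mul_comm]⟩ with h8 | h8
    · right
      rw [h8, mul_one] at habs
      exact habs
    · left
      rw [h8] at habs
      have h9 : |D| * (2 ^ (2 ^ m) + 1) = 1 * (2 ^ (2 ^ m) + 1) := by rw [habs, one_mul]
      exact mul_right_cancel₀ hpos.ne' h9

theorem FN3 (hLVA : LVA_stmt) (hFR2 : FR2_stmt) (hNQV : NQV_stmt) (hTA2 : TA2_stmt)
    (hKI2 : KI2_stmt) : FN3_stmt := by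
  intro A hA
  apply FN3_list
  intro x hx
  rcases hA x hx with ⟨h1, h2⟩ | ⟨h1, h2⟩
  · exact hKI2 x.1 x.2 h1 h2
  · exact FN3_kill hLVA hFR2 hNQV hTA2 hKI2 x.1 x.2 h1 h2

end Pool.Agent.NoFormula
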