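import Pool.Agent.helper37.NF.Spec

/-!
# Row SMA: the small cases (finite check)
-/

set_option autoImplicit false

namespace Pool.Agent.helper37.NF

open Finset Pool.Agent.NK

/-- fast binomial -/
def SMA_fb (n k : ℕ) : ℕ := n.descFactorial k / k.factorial

/-- `MV` with the fast binomial -/
def SMA_mv (n t : ℕ) : ℕ := ((n + 1) / t) * SMA_fb (n - (n + 1) / t) (t - 1)

/-- the inequality for the maximal `a` -/
def SMA_test (t i n : ℕ) : Bool :=
  Nat.ble (SMA_fb (i * (n + 1) / t) i * SMA_fb (n - i * (n + 1) / t) (t - i) + SMA_mv n (t - 2))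
    (SMA_mv n t)

theorem SMA_fb_eq (n k : ℕ) : n.choose k = SMA_fb n k := Nat.choose_eq_descFactorial_div_factorial n k

theorem SMA_mv_eq (n t : ℕ) : MV n t = SMA_mv n t := by
  unfold MV SMA_mv
  rw [SMA_fb_eq]

set_option maxRecDepth 100000 in
theorem SMA_all : (List.range 12).all (fun t => (List.range t).all fun i => (List.range 110).all fun n =>
    !(Nat.ble 2 i && Nat.ble 2 (t - i) && Nat.ble (4 * t) n && Nat.ble (n + 1) (10 * t)) ||
      SMA_test t i n) = true := by
  decide +kernel

theorem SMA (h : UNI_stmt) : SMA_stmt := by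
  intro a b i j hi hj hij h4 h10
  have h1 := h a b i j (by omega) (by omega) (by omega)
  have h2 := SMA_all
  rw [List.all_eq_true] at h2
  have h3 := h2 (i + j) (List.mem_range.2 (by omega))
  rw [List.all_eq_true] at h3
  have h5 := h3 i (List.mem_range.2 (by omega))
  rw [List.all_eq_true] at h5
  have h6 := h5 (a + b) (List.mem_range.2 (by omega))
  rw [Bool.or_eq_true] at h6
  rcases h6 with h6 | h6
  · exfalso
    have e1 : Nat.ble 2 i = true := Nat.ble_eq_true_of_le hi
    have e2 : Nat.ble 2 (i + j - i) = true := Nat.ble_eq_true_of_le (by omega)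
    have e3 : Nat.ble (4 * (i + j)) (a + b) = true := Nat.ble_eq_true_of_le h4
    have e4 : Nat.ble (a + b + 1) (10 * (i + j)) = true := Nat.ble_eq_true_of_le (by omega)
    rw [e1, e2, e3, e4] at h6
    simp at h6
  · have h7 := Nat.le_of_ble_eq_true h6
    rw [← SMA_fb_eq, ← SMA_fb_eq, ← SMA_mv_eq, ← SMA_mv_eq] at h7
    have e : i + j - i = j := by omega
    rw [e] at h7
    omega

end Pool.Agent.helper37.NF
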